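import Mathlib
import Pool.Agent.Lib.MP_0f7a95_an.Dens
import Pool.Agent.Lib.MP_0f7a95_an.Jan

set_option autoImplicit false

namespace Pool.Agent.Results.MP_0f7a95_an.HullEqSpan

/-- Let the spectrum of `T` lie in a compact set `K` with connected complement which misses the
closed unit disc and its own mirror image in the real axis. Then the closed convex hull of every
orbit of `T` is the closed complex-linear span of that orbit. -/
theorem result {X : Type} [NormedAddCommGroup X] [NormedSpace ℂ X] [CompleteSpace X]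
    (T : X →L[ℂ] X) (K : Set ℂ) (hK : IsCompact K) (hconn : IsPreconnected Kᶜ)
    (hσ : spectrum ℂ T ⊆ K) (hdisc : ∀ z ∈ K, 1 < ‖z‖)
    (hconj : ∀ z ∈ K, (starRingEnd ℂ) z ∉ K) (x : X) :
    closure (convexHull ℝ (Set.range fun n : ℕ => (T ^ n) x))
      = closure (Submodule.span ℂ (Set.range fun n : ℕ => (T ^ n) x) : Set X) :=
  Pool.Agent.Lib.MP_0f7a95_an.hull_eq T hK hσ hdisc hconj
    (Pool.Agent.Lib.MP_0f7a95_an.conn_three hK hdisc hconj hconn) x

end Pool.Agent.Results.MP_0f7a95_an.HullEqSpan
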