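import Mathlib
import Pool.Agent.Lib.MP_0f7a95_an.Dens
import Pool.Agent.Lib.MP_0f7a95_an.Jan

set_option autoImplicit false

namespace Pool.Agent.Results.MP_0f7a95_an.SpectralCriterion

variable {X : Type} [NormedAddCommGroup X] [NormedSpace ℂ X]

/-- The vectors whose orbit `{x, T x, T² x, …}` has a dense convex hull. -/
def convexCyclicVectors (T : X →L[ℂ] X) : Set X :=
  {x : X | Dense (convexHull ℝ (Set.range fun n : ℕ => (T ^ n) x))}

/-- The vectors whose orbit has a dense complex-linear span. -/
def cyclicVectors (T : X →L[ℂ] X) : Set X :=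
  {x : X | Dense (Submodule.span ℂ (Set.range fun n : ℕ => (T ^ n) x) : Set X)}

/-- The point spectrum of the Banach-space adjoint of `T`. -/
def adjointPointSpectrum (T : X →L[ℂ] X) : Set ℂ :=
  {l : ℂ | ∃ f : X →L[ℂ] ℂ, f ≠ 0 ∧ ∀ y : X, f (T y) = l * f y}

/-- Let the spectrum of `T` lie in a compact set `K` with connected complement which misses the
closed unit disc and its own mirror image in the real axis. Then `T` is convex-cyclic with a
non-dense set of convex-cyclic vectors if and only if `T` is cyclic and the point spectrum of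
its adjoint has an interior point. -/
theorem result [CompleteSpace X] (T : X →L[ℂ] X) (K : Set ℂ) (hK : IsCompact K)
    (hconn : IsPreconnected Kᶜ) (hσ : spectrum ℂ T ⊆ K) (hdisc : ∀ z ∈ K, 1 < ‖z‖)
    (hconj : ∀ z ∈ K, (starRingEnd ℂ) z ∉ K) :
    ((convexCyclicVectors T).Nonempty ∧ ¬ Dense (convexCyclicVectors T)) ↔
      ((cyclicVectors T).Nonempty ∧ (interior (adjointPointSpectrum T)).Nonempty) := by
  have h := Pool.Agent.Lib.MP_0f7a95_an.hull_eq T hK hσ hdisc hconj
    (Pool.Agent.Lib.MP_0f7a95_an.conn_three hK hdisc hconj hconn)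
  have e : convexCyclicVectors T = cyclicVectors T := by
    ext x
    show Dense _ ↔ Dense _
    rw [dense_iff_closure_eq, dense_iff_closure_eq]
    exact (h x).congr_left
  rw [e, Set.nonempty_iff_ne_empty (s := interior _)]
  refine and_congr_right fun ⟨x, hx⟩ => not_congr ?_
  exact ⟨Pool.Agent.Lib.MP_0f7a95_an.not_dense_cyclic T hx,
    Pool.Agent.Lib.MP_0f7a95_an.dense_cyclic T hx⟩

end Pool.Agent.Results.MP_0f7a95_an.SpectralCriterion
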